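import Pool.Agent.helper97.TQ6.Defs

set_option autoImplicit false

/-!
# The one-level lemma

A left-to-right automaton along the staircase.  A state `(l1, l0, u1, u0)` records the previous and
the current lower vertex and the previous and the current upper vertex (`3` = hit, respectively not
switched).  The family `fam` of sets of states is closed under all steps, and no set is empty.
-/

namespace Pool.Agent.helper97.TQ6

namespace OL

/-- a state of the automaton -/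
abbrev Q : Type := Fin 4 × Fin 4 × Fin 4 × Fin 4

/-- a step to the next lower vertex -/
def sv (q r : Q) : Bool :=
  r.1 == q.2.1 && r.2.2.1 == q.2.2.1 && r.2.2.2 == q.2.2.2 &&
  r.2.1 != q.2.1 && r.2.1 != q.2.2.2 && (r.2.1 != q.1 || r.2.1 == 3)

/-- a step to the next upper vertex; `k = 0`: neither the old nor the new one is a given hit;
`k = 1`: the new one is a given hit (or a root); `k = 2`: the old one is a given hit -/
def sw (k : Fin 3) (q r : Q) : Bool :=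
  r.1 == q.1 && r.2.1 == q.2.1 && r.2.2.1 == q.2.2.2 &&
  r.2.2.2 != q.2.1 && (r.2.2.2 != q.2.2.2 || r.2.2.2 == 3) &&
  (r.2.2.2 != q.2.2.1 || r.2.2.2 == 3) &&
  (if k = 0 then ((r.2.2.2 == 3) == (q.2.2.2 == 3)) else if k = 1 then r.2.2.2 != 3 else true)

/-- `B` can be reached from `A` -/
def reach (st : Q → Q → Bool) (A B : List Q) : Bool := B.all fun r => A.any fun q => st q r

/-- the closed family; first entry `0`: the current upper vertex is not a given hit, `1`: it is one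
(or the first root), `2`: it is the second root -/
def fam : List (Fin 3 × List Q) := [
  (0, [(3,0,3,3), (3,1,3,3), (3,2,3,3)]),
  (0, [(0,1,3,3), (0,2,3,3), (1,0,3,3), (1,2,3,3), (2,0,3,3), (2,1,3,3)]),
  (1, [(3,0,3,1), (3,0,3,2), (3,1,3,0), (3,1,3,2), (3,2,3,0), (3,2,3,1)]),
  (1, [(0,1,3,2), (0,2,3,1), (0,3,3,1), (0,3,3,2), (1,0,3,2), (1,2,3,0), (1,3,3,0), (1,3,3,2), (2,0,3,1), (2,1,3,0), (2,3,3,0), (2,3,3,1)]),
  (0, [(3,0,1,2), (3,0,1,3), (3,0,2,1), (3,0,2,3), (3,1,0,2), (3,1,0,3), (3,1,2,0), (3,1,2,3), (3,2,0,1), (3,2,0,3), (3,2,1,0), (3,2,1,3)]),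
  (2, [(3,0,1,2), (3,0,2,1), (3,1,0,2), (3,1,2,0), (3,2,0,1), (3,2,1,0)]),
  (2, [(0,1,1,2), (0,2,2,1), (0,3,1,2), (0,3,2,1), (1,0,0,2), (1,2,2,0), (1,3,0,2), (1,3,2,0), (2,0,0,1), (2,1,1,0), (2,3,0,1), (2,3,1,0)]),
  (2, [(0,3,0,1), (0,3,0,2), (1,3,1,0), (1,3,1,2), (2,3,2,0), (2,3,2,1), (3,0,0,1), (3,0,0,2), (3,1,1,0), (3,1,1,2), (3,2,2,0), (3,2,2,1)]),
  (0, [(0,1,1,2), (0,1,1,3), (0,1,2,3), (0,2,1,3), (0,2,2,1), (0,2,2,3), (0,3,1,2), (0,3,2,1), (1,0,0,2), (1,0,0,3), (1,0,2,3), (1,2,0,3), (1,2,2,0), (1,2,2,3), (1,3,0,2), (1,3,2,0), (2,0,0,1), (2,0,0,3), (2,0,1,3), (2,1,0,3), (2,1,1,0), (2,1,1,3), (2,3,0,1), (2,3,1,0)]),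
  (0, [(0,1,0,3), (0,1,1,3), (0,2,0,3), (0,2,2,3), (0,3,0,1), (0,3,0,2), (1,0,0,3), (1,0,1,3), (1,2,1,3), (1,2,2,3), (1,3,1,0), (1,3,1,2), (2,0,0,3), (2,0,2,3), (2,1,1,3), (2,1,2,3), (2,3,2,0), (2,3,2,1), (3,0,0,1), (3,0,0,2), (3,1,1,0), (3,1,1,2), (3,2,2,0), (3,2,2,1)]),
  (2, [(0,1,0,2), (0,1,2,0), (0,2,0,1), (0,2,1,0), (1,0,1,2), (1,0,2,1), (1,2,0,1), (1,2,1,0), (2,0,1,2), (2,0,2,1), (2,1,0,2), (2,1,2,0)]),
  (0, [(0,1,2,0), (0,1,2,3), (0,2,1,0), (0,2,1,3), (0,3,1,0), (0,3,1,2), (0,3,2,0), (0,3,2,1), (1,0,2,1), (1,0,2,3), (1,2,0,1), (1,2,0,3), (1,3,0,1), (1,3,0,2), (1,3,2,0), (1,3,2,1), (2,0,1,2), (2,0,1,3), (2,1,0,2), (2,1,0,3), (2,3,0,1), (2,3,0,2), (2,3,1,0), (2,3,1,2)]),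
  (2, [(0,1,2,0), (0,2,1,0), (0,3,1,0), (0,3,1,2), (0,3,2,0), (0,3,2,1), (1,0,2,1), (1,2,0,1), (1,3,0,1), (1,3,0,2), (1,3,2,0), (1,3,2,1), (2,0,1,2), (2,1,0,2), (2,3,0,1), (2,3,0,2), (2,3,1,0), (2,3,1,2)]),
  (0, [(0,1,1,2), (0,1,1,3), (0,2,2,1), (0,2,2,3), (0,3,1,2), (0,3,2,1), (1,0,0,2), (1,0,0,3), (1,2,2,0), (1,2,2,3), (1,3,0,2), (1,3,2,0), (2,0,0,1), (2,0,0,3), (2,1,1,0), (2,1,1,3), (2,3,0,1), (2,3,1,0), (3,0,0,1), (3,0,0,2), (3,0,1,2), (3,0,2,1), (3,1,0,2), (3,1,1,0), (3,1,1,2), (3,1,2,0), (3,2,0,1), (3,2,1,0), (3,2,2,0), (3,2,2,1)]),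
  (1, [(0,1,3,0), (0,2,3,0), (0,3,0,1), (0,3,0,2), (0,3,1,0), (0,3,2,0), (1,0,3,1), (1,2,3,1), (1,3,0,1), (1,3,1,0), (1,3,1,2), (1,3,2,1), (2,0,3,2), (2,1,3,2), (2,3,0,2), (2,3,1,2), (2,3,2,0), (2,3,2,1)]),
  (0, [(0,1,0,2), (0,1,0,3), (0,2,0,1), (0,2,0,3), (0,3,0,1), (0,3,0,2), (0,3,1,2), (0,3,2,1), (1,0,1,2), (1,0,1,3), (1,2,1,0), (1,2,1,3), (1,3,0,2), (1,3,1,0), (1,3,1,2), (1,3,2,0), (2,0,2,1), (2,0,2,3), (2,1,2,0), (2,1,2,3), (2,3,0,1), (2,3,1,0), (2,3,2,0), (2,3,2,1)]),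
  (0, [(0,1,2,3), (0,2,1,3), (0,3,1,2), (0,3,2,1), (1,0,2,3), (1,2,0,3), (1,3,0,2), (1,3,2,0), (2,0,1,3), (2,1,0,3), (2,3,0,1), (2,3,1,0), (3,0,0,1), (3,0,0,2), (3,0,1,2), (3,0,2,1), (3,1,0,2), (3,1,1,0), (3,1,1,2), (3,1,2,0), (3,2,0,1), (3,2,1,0), (3,2,2,0), (3,2,2,1)]),
  (1, [(0,1,3,2), (0,2,3,1), (0,3,1,0), (0,3,1,2), (0,3,2,0), (0,3,2,1), (1,0,3,2), (1,2,3,0), (1,3,0,1), (1,3,0,2), (1,3,2,0), (1,3,2,1), (2,0,3,1), (2,1,3,0), (2,3,0,1), (2,3,0,2), (2,3,1,0), (2,3,1,2)]),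
  (1, [(0,3,3,1), (0,3,3,2), (1,3,3,0), (1,3,3,2), (2,3,3,0), (2,3,3,1), (3,0,0,1), (3,0,0,2), (3,0,1,2), (3,0,2,1), (3,1,0,2), (3,1,1,0), (3,1,1,2), (3,1,2,0), (3,2,0,1), (3,2,1,0), (3,2,2,0), (3,2,2,1)]),
  (0, [(0,1,2,0), (0,1,2,3), (0,2,1,0), (0,2,1,3), (0,3,0,1), (0,3,0,2), (0,3,1,0), (0,3,2,0), (1,0,2,1), (1,0,2,3), (1,2,0,1), (1,2,0,3), (1,3,0,1), (1,3,1,0), (1,3,1,2), (1,3,2,1), (2,0,1,2), (2,0,1,3), (2,1,0,2), (2,1,0,3), (2,3,0,2), (2,3,1,2), (2,3,2,0), (2,3,2,1)]),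
  (2, [(0,1,2,0), (0,2,1,0), (0,3,0,1), (0,3,0,2), (0,3,1,0), (0,3,2,0), (1,0,2,1), (1,2,0,1), (1,3,0,1), (1,3,1,0), (1,3,1,2), (1,3,2,1), (2,0,1,2), (2,1,0,2), (2,3,0,2), (2,3,1,2), (2,3,2,0), (2,3,2,1)]),
  (1, [(0,1,3,0), (0,2,3,0), (0,3,0,1), (0,3,0,2), (0,3,1,2), (0,3,2,1), (1,0,3,1), (1,2,3,1), (1,3,0,2), (1,3,1,0), (1,3,1,2), (1,3,2,0), (2,0,3,2), (2,1,3,2), (2,3,0,1), (2,3,1,0), (2,3,2,0), (2,3,2,1)]),
  (0, [(0,1,0,2), (0,1,0,3), (0,2,0,1), (0,2,0,3), (0,3,1,0), (0,3,1,2), (0,3,2,0), (0,3,2,1), (1,0,1,2), (1,0,1,3), (1,2,1,0), (1,2,1,3), (1,3,0,1), (1,3,0,2), (1,3,2,0), (1,3,2,1), (2,0,2,1), (2,0,2,3), (2,1,2,0), (2,1,2,3), (2,3,0,1), (2,3,0,2), (2,3,1,0), (2,3,1,2)]),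
  (2, [(0,1,0,2), (0,2,0,1), (0,3,1,0), (0,3,1,2), (0,3,2,0), (0,3,2,1), (1,0,1,2), (1,2,1,0), (1,3,0,1), (1,3,0,2), (1,3,2,0), (1,3,2,1), (2,0,2,1), (2,1,2,0), (2,3,0,1), (2,3,0,2), (2,3,1,0), (2,3,1,2)]),
  (1, [(0,1,3,2), (0,2,3,1), (0,3,0,1), (0,3,0,2), (0,3,1,0), (0,3,2,0), (1,0,3,2), (1,2,3,0), (1,3,0,1), (1,3,1,0), (1,3,1,2), (1,3,2,1), (2,0,3,1), (2,1,3,0), (2,3,0,2), (2,3,1,2), (2,3,2,0), (2,3,2,1)]),
  (0, [(0,1,2,0), (0,1,2,3), (0,2,1,0), (0,2,1,3), (0,3,0,1), (0,3,0,2), (0,3,1,2), (0,3,2,1), (1,0,2,1), (1,0,2,3), (1,2,0,1), (1,2,0,3), (1,3,0,2), (1,3,1,0), (1,3,1,2), (1,3,2,0), (2,0,1,2), (2,0,1,3), (2,1,0,2), (2,1,0,3), (2,3,0,1), (2,3,1,0), (2,3,2,0), (2,3,2,1)]),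
  (2, [(0,1,2,0), (0,2,1,0), (0,3,0,1), (0,3,0,2), (0,3,1,2), (0,3,2,1), (1,0,2,1), (1,2,0,1), (1,3,0,2), (1,3,1,0), (1,3,1,2), (1,3,2,0), (2,0,1,2), (2,1,0,2), (2,3,0,1), (2,3,1,0), (2,3,2,0), (2,3,2,1)]),
  (1, [(0,1,3,0), (0,2,3,0), (0,3,1,0), (0,3,1,2), (0,3,2,0), (0,3,2,1), (1,0,3,1), (1,2,3,1), (1,3,0,1), (1,3,0,2), (1,3,2,0), (1,3,2,1), (2,0,3,2), (2,1,3,2), (2,3,0,1), (2,3,0,2), (2,3,1,0), (2,3,1,2)]),
  (0, [(0,1,0,2), (0,1,0,3), (0,2,0,1), (0,2,0,3), (0,3,0,1), (0,3,0,2), (0,3,1,0), (0,3,2,0), (1,0,1,2), (1,0,1,3), (1,2,1,0), (1,2,1,3), (1,3,0,1), (1,3,1,0), (1,3,1,2), (1,3,2,1), (2,0,2,1), (2,0,2,3), (2,1,2,0), (2,1,2,3), (2,3,0,2), (2,3,1,2), (2,3,2,0), (2,3,2,1)]),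
  (1, [(0,1,3,2), (0,2,3,1), (0,3,0,1), (0,3,0,2), (0,3,1,2), (0,3,2,1), (1,0,3,2), (1,2,3,0), (1,3,0,2), (1,3,1,0), (1,3,1,2), (1,3,2,0), (2,0,3,1), (2,1,3,0), (2,3,0,1), (2,3,1,0), (2,3,2,0), (2,3,2,1)]),
  (0, [(0,1,0,2), (0,1,1,2), (0,1,1,3), (0,2,0,1), (0,2,2,1), (0,2,2,3), (0,3,0,1), (0,3,0,2), (0,3,1,2), (0,3,2,1), (1,0,0,2), (1,0,0,3), (1,0,1,2), (1,2,1,0), (1,2,2,0), (1,2,2,3), (1,3,0,2), (1,3,1,0), (1,3,1,2), (1,3,2,0), (2,0,0,1), (2,0,0,3), (2,0,2,1), (2,1,1,0), (2,1,1,3), (2,1,2,0), (2,3,0,1), (2,3,1,0), (2,3,2,0), (2,3,2,1), (3,0,0,1), (3,0,0,2), (3,1,1,0), (3,1,1,2), (3,2,2,0), (3,2,2,1)]),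
  (1, [(0,1,3,0), (0,2,3,0), (0,3,1,0), (0,3,2,0), (1,0,3,1), (1,2,3,1), (1,3,0,1), (1,3,2,1), (2,0,3,2), (2,1,3,2), (2,3,0,2), (2,3,1,2), (3,0,1,2), (3,0,2,1), (3,1,0,2), (3,1,2,0), (3,2,0,1), (3,2,1,0)]),
  (0, [(0,1,0,2), (0,1,0,3), (0,2,0,1), (0,2,0,3), (0,3,0,1), (0,3,0,2), (1,0,1,2), (1,0,1,3), (1,2,1,0), (1,2,1,3), (1,3,1,0), (1,3,1,2), (2,0,2,1), (2,0,2,3), (2,1,2,0), (2,1,2,3), (2,3,2,0), (2,3,2,1), (3,0,1,3), (3,0,2,3), (3,1,0,3), (3,1,2,3), (3,2,0,3), (3,2,1,3)]),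
  (2, [(0,1,0,2), (0,2,0,1), (0,3,0,1), (0,3,0,2), (1,0,1,2), (1,2,1,0), (1,3,1,0), (1,3,1,2), (2,0,2,1), (2,1,2,0), (2,3,2,0), (2,3,2,1)]),
  (0, [(0,1,1,3), (0,1,2,3), (0,2,1,3), (0,2,2,3), (0,3,1,2), (0,3,2,1), (1,0,0,3), (1,0,2,3), (1,2,0,3), (1,2,2,3), (1,3,0,2), (1,3,2,0), (2,0,0,3), (2,0,1,3), (2,1,0,3), (2,1,1,3), (2,3,0,1), (2,3,1,0), (3,0,1,2), (3,0,2,1), (3,1,0,2), (3,1,2,0), (3,2,0,1), (3,2,1,0)]),
  (0, [(0,1,0,3), (0,1,1,2), (0,1,1,3), (0,2,0,3), (0,2,2,1), (0,2,2,3), (0,3,1,2), (0,3,2,1), (1,0,0,2), (1,0,0,3), (1,0,1,3), (1,2,1,3), (1,2,2,0), (1,2,2,3), (1,3,0,2), (1,3,2,0), (2,0,0,1), (2,0,0,3), (2,0,2,3), (2,1,1,0), (2,1,1,3), (2,1,2,3), (2,3,0,1), (2,3,1,0), (3,0,0,1), (3,0,0,2), (3,1,1,0), (3,1,1,2), (3,2,2,0), (3,2,2,1)]),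
  (0, [(0,1,0,2), (0,1,0,3), (0,1,2,3), (0,2,0,1), (0,2,0,3), (0,2,1,3), (0,3,0,1), (0,3,0,2), (1,0,1,2), (1,0,1,3), (1,0,2,3), (1,2,0,3), (1,2,1,0), (1,2,1,3), (1,3,1,0), (1,3,1,2), (2,0,1,3), (2,0,2,1), (2,0,2,3), (2,1,0,3), (2,1,2,0), (2,1,2,3), (2,3,2,0), (2,3,2,1), (3,0,0,1), (3,0,0,2), (3,1,1,0), (3,1,1,2), (3,2,2,0), (3,2,2,1)]),
  (1, [(0,1,3,0), (0,1,3,2), (0,2,3,0), (0,2,3,1), (1,0,3,1), (1,0,3,2), (1,2,3,0), (1,2,3,1), (2,0,3,1), (2,0,3,2), (2,1,3,0), (2,1,3,2)]),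
  (0, [(0,1,0,2), (0,1,0,3), (0,1,2,0), (0,1,2,3), (0,2,0,1), (0,2,0,3), (0,2,1,0), (0,2,1,3), (1,0,1,2), (1,0,1,3), (1,0,2,1), (1,0,2,3), (1,2,0,1), (1,2,0,3), (1,2,1,0), (1,2,1,3), (2,0,1,2), (2,0,1,3), (2,0,2,1), (2,0,2,3), (2,1,0,2), (2,1,0,3), (2,1,2,0), (2,1,2,3)]),
  (0, [(0,1,0,2), (0,1,0,3), (0,1,2,3), (0,2,0,1), (0,2,0,3), (0,2,1,3), (0,3,0,1), (0,3,0,2), (1,0,1,2), (1,0,1,3), (1,0,2,3), (1,2,0,3), (1,2,1,0), (1,2,1,3), (1,3,1,0), (1,3,1,2), (2,0,1,3), (2,0,2,1), (2,0,2,3), (2,1,0,3), (2,1,2,0), (2,1,2,3), (2,3,2,0), (2,3,2,1), (3,0,1,2), (3,0,2,1), (3,1,0,2), (3,1,2,0), (3,2,0,1), (3,2,1,0)])]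

theorem cl_start : (0, [(3,0,3,3), (3,1,3,3), (3,2,3,3)]) ∈ fam := by
  simp [fam]

theorem cl_v : (fam.all fun A => fam.any fun B => B.1 == A.1 && reach sv A.2 B.2) = true := by
  decide +kernel

theorem cl_nn : (fam.all fun A => A.1 != 0 || fam.any fun B =>
    B.1 == 0 && reach (sw 0) A.2 B.2) = true := by
  decide +kernel

theorem cl_ns : (fam.all fun A => A.1 != 0 || fam.any fun B =>
    B.1 == 1 && reach (sw 1) A.2 B.2) = true := by
  decide +kernel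

theorem cl_sn : (fam.all fun A => A.1 != 1 || fam.any fun B =>
    B.1 == 0 && reach (sw 2) A.2 B.2) = true := by
  decide +kernel

theorem cl_sb : (fam.all fun A => A.1 != 1 || fam.any fun B =>
    B.1 == 2 && reach (sw 1) A.2 B.2) = true := by
  decide +kernel

theorem cl_end : (fam.all fun A => A.1 != 2 || A.2.any fun q => q.2.1 != 3) = true := by
  decide +kernel

/-- the conditions up to the lower vertex `l` and the upper vertex `u`; the values are shifted by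
one: `g (x + 1)` belongs to the lower vertex `x` and `h (y + 1)` to the upper vertex `y` -/
structure Part (P : ℕ → ℕ) (a e : ℕ) (S : Set ℕ) (l u : ℕ) (g h : ℕ → Fin 4) : Prop where
  begu : h (P a + 1) = 3
  l1 : ∀ x, a ≤ x → x + 1 ≤ l → g (x + 1) ≠ g (x + 2)
  l2 : ∀ x, a ≤ x → x + 2 ≤ l → g (x + 1) = g (x + 3) → g (x + 1) = 3
  inS : ∀ y ∈ S, y ≤ u → h (y + 1) ≠ 3
  ine : e ≤ u → h (e + 1) ≠ 3
  ine1 : e + 1 ≤ u → h (e + 2) ≠ 3
  u1 : ∀ y, P a ≤ y → y + 1 ≤ u → h (y + 1) = h (y + 2) → h (y + 1) = 3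
  u2 : ∀ y, P a ≤ y → y + 2 ≤ u → h (y + 1) = h (y + 3) → h (y + 1) = 3
  gap : ∀ y, P a ≤ y → y + 1 ≤ u → y + 1 < e → y ∉ S → y + 1 ∉ S →
    (h (y + 1) = 3 ↔ h (y + 2) = 3)
  cross : ∀ x y, a ≤ x → x ≤ l → y ≤ u → P x ≤ y → y ≤ P (x + 1) → g (x + 1) ≠ h (y + 1)

open Classical in
/-- the mode of an upper vertex -/
noncomputable def mode (e : ℕ) (S : Set ℕ) (u : ℕ) : Fin 3 :=
  if u = e + 1 then 2 else if u = e ∨ u ∈ S then 1 else 0

/-- some set of the family is completely realised -/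
def Inv (P : ℕ → ℕ) (a e : ℕ) (S : Set ℕ) (l u : ℕ) : Prop :=
  ∃ A ∈ fam, A.1 = mode e S u ∧ ∀ q ∈ A.2, ∃ g h : ℕ → Fin 4, Part P a e S l u g h ∧
    g l = q.1 ∧ g (l + 1) = q.2.1 ∧ h u = q.2.2.1 ∧ h (u + 1) = q.2.2.2

/-- one step of the lower vertex -/
theorem part_v {P : ℕ → ℕ} {a e : ℕ} {S : Set ℕ} {l u : ℕ}
    (hu : u = P (l + 1)) {g h : ℕ → Fin 4} (T : Part P a e S l u g h) {q r : Q}
    (h1 : g l = q.1) (h2 : g (l + 1) = q.2.1) (h3 : h u = q.2.2.1) (h4 : h (u + 1) = q.2.2.2)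
    (hs : sv q r = true) :
    ∃ g' h' : ℕ → Fin 4, Part P a e S (l + 1) u g' h' ∧
      g' (l + 1) = r.1 ∧ g' (l + 1 + 1) = r.2.1 ∧ h' u = r.2.2.1 ∧ h' (u + 1) = r.2.2.2 := by
  simp only [sv, Bool.and_eq_true, Bool.or_eq_true, beq_iff_eq, bne_iff_ne] at hs
  obtain ⟨⟨⟨⟨⟨e1, e2⟩, e3⟩, n1⟩, n2⟩, n3⟩ := hs
  have key : ∀ x, x ≤ l + 1 → Function.update g (l + 2) r.2.1 x = g x := fun x hx =>
    Function.update_of_ne (by omega) _ _
  have kk : Function.update g (l + 2) r.2.1 (l + 2) = r.2.1 := Function.update_self ..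
  refine ⟨Function.update g (l + 2) r.2.1, h, ?_, ?_, kk, ?_, ?_⟩
  · refine ⟨T.begu, ?_, ?_, T.inS, T.ine, T.ine1, T.u1, T.u2, T.gap, ?_⟩
    · intro x hx hxl
      rw [key (x + 1) (by omega)]
      rcases Nat.lt_or_ge (x + 1) (l + 1) with hx2 | hx2
      · rw [key (x + 2) (by omega)]
        exact T.l1 x hx (by omega)
      · have : x = l := by omega
        subst this
        rw [kk, h2]
        exact fun h => n1 h.symm
    · intro x hx hxl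
      rw [key (x + 1) (by omega)]
      rcases Nat.lt_or_ge (x + 2) (l + 1) with hx2 | hx2
      · rw [key (x + 3) (by omega)]
        exact T.l2 x hx (by omega)
      · have hh : x + 3 = l + 2 := by omega
        have hh2 : x + 1 = l := by omega
        rw [hh, kk, hh2, h1]
        intro hq
        rcases n3 with n3 | n3
        · exact absurd hq.symm n3
        · rw [hq, n3]
    · intro x y hx hxl hy hxy hyx
      rcases Nat.lt_or_ge x (l + 1) with hx2 | hx2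
      · rw [key (x + 1) (by omega)]
        exact T.cross x y hx (by omega) hy hxy hyx
      · have : x = l + 1 := by omega
        subst this
        have hy2 : y = u := by omega
        subst hy2
        rw [kk, h4]
        exact n2
  · rw [key (l + 1) le_rfl, h2, e1]
  · rw [h3, e2]
  · rw [h4, e3]

/-- one step of the upper vertex -/
theorem part_w {P : ℕ → ℕ} (hP : Monotone P) {a e : ℕ} {S : Set ℕ} {l u : ℕ} (hl : a ≤ l)
    (hlu : P l ≤ u) (hu : u < P (l + 1)) {g h : ℕ → Fin 4} (T : Part P a e S l u g h) {q r : Q}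
    (h1 : g l = q.1) (h2 : g (l + 1) = q.2.1) (h3 : h u = q.2.2.1) (h4 : h (u + 1) = q.2.2.2)
    (k : Fin 3) (hs : sw k q r = true) (hk0 : k = 0 → u + 1 ∉ S ∧ u + 1 ≠ e ∧ u ≠ e)
    (hk1 : k = 1 → u + 1 ∈ S ∨ u + 1 = e ∨ u = e)
    (hk2 : k = 2 → u + 1 ∉ S ∧ u + 1 ≠ e ∧ u ≠ e ∧ u ∈ S) :
    ∃ g' h' : ℕ → Fin 4, Part P a e S l (u + 1) g' h' ∧
      g' l = r.1 ∧ g' (l + 1) = r.2.1 ∧ h' (u + 1) = r.2.2.1 ∧ h' (u + 1 + 1) = r.2.2.2 := by
  simp only [sw, Bool.and_eq_true, Bool.or_eq_true, beq_iff_eq, bne_iff_ne] at hs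
  obtain ⟨⟨⟨⟨⟨⟨e1, e2⟩, e3⟩, n1⟩, n2⟩, n3⟩, n4⟩ := hs
  have hPau : P a ≤ u := (hP hl).trans hlu
  have key : ∀ x, x ≤ u + 1 → Function.update h (u + 2) r.2.2.2 x = h x := fun x hx =>
    Function.update_of_ne (by omega) _ _
  have kk : Function.update h (u + 2) r.2.2.2 (u + 2) = r.2.2.2 := Function.update_self ..
  have k3 : k = 0 ∨ k = 1 ∨ k = 2 := by fin_cases k <;> simp
  have k1 : k = 1 → r.2.2.2 ≠ 3 := by
    intro hk
    subst hk
    simpa using n4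
  have kn : u + 1 ∈ S ∨ u + 1 = e ∨ u = e → r.2.2.2 ≠ 3 := by
    intro hh
    apply k1
    rcases k3 with hk | hk | hk
    · obtain ⟨b1, b2, b3⟩ := hk0 hk
      rcases hh with hh | hh | hh
      exacts [absurd hh b1, absurd hh b2, absurd hh b3]
    · exact hk
    · obtain ⟨b1, b2, b3, -⟩ := hk2 hk
      rcases hh with hh | hh | hh
      exacts [absurd hh b1, absurd hh b2, absurd hh b3]
  refine ⟨g, Function.update h (u + 2) r.2.2.2, ?_, ?_, ?_, ?_, kk⟩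
  · refine ⟨?_, T.l1, T.l2, ?_, ?_, ?_, ?_, ?_, ?_, ?_⟩
    · rw [key _ (by omega)]; exact T.begu
    · intro y hy hyu
      rcases Nat.lt_or_ge y (u + 1) with hx2 | hx2
      · rw [key (y + 1) (by omega)]
        exact T.inS y hy (by omega)
      · have : y = u + 1 := by omega
        subst this
        rw [kk]
        exact kn (Or.inl hy)
    · intro he
      rcases Nat.lt_or_ge e (u + 1) with hx2 | hx2
      · rw [key (e + 1) (by omega)]
        exact T.ine (by omega)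
      · have : e = u + 1 := by omega
        subst this
        rw [kk]
        exact kn (Or.inr (Or.inl rfl))
    · intro he
      rcases Nat.lt_or_ge e u with hx2 | hx2
      · rw [key (e + 2) (by omega)]
        exact T.ine1 (by omega)
      · have : e = u := by omega
        subst this
        rw [kk]
        exact kn (Or.inr (Or.inr rfl))
    · intro y hy hyu
      rw [key (y + 1) (by omega)]
      rcases Nat.lt_or_ge (y + 1) (u + 1) with hx2 | hx2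
      · rw [key (y + 2) (by omega)]
        exact T.u1 y hy (by omega)
      · have : y = u := by omega
        subst this
        rw [kk, h4]
        intro hq
        rcases n2 with n2 | n2
        · exact absurd hq.symm n2
        · rw [hq, n2]
    · intro y hy hyu
      rw [key (y + 1) (by omega)]
      rcases Nat.lt_or_ge (y + 2) (u + 1) with hx2 | hx2
      · rw [key (y + 3) (by omega)]
        exact T.u2 y hy (by omega)
      · have hh : y + 3 = u + 2 := by omega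
        have hh2 : y + 1 = u := by omega
        rw [hh, kk, hh2, h3]
        intro hq
        rcases n3 with n3 | n3
        · exact absurd hq.symm n3
        · rw [hq, n3]
    · intro y hy hyu hye hyS hyS1
      rw [key (y + 1) (by omega)]
      rcases Nat.lt_or_ge (y + 1) (u + 1) with hx2 | hx2
      · rw [key (y + 2) (by omega)]
        exact T.gap y hy (by omega) hye hyS hyS1
      · have : y = u := by omega
        subst this
        rw [kk, h4]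
        have a0 : k = 0 := by
          rcases k3 with hk | hk | hk
          · exact hk
          · rcases hk1 hk with hh | hh | hh
            · exact absurd hh hyS1
            · omega
            · omega
          · exact absurd (hk2 hk).2.2.2 hyS
        subst a0
        simp only [if_true, beq_iff_eq] at n4
        have n5 : ((r.2.2.2 == 3) = true) ↔ ((q.2.2.2 == 3) = true) := by rw [n4]
        rw [beq_iff_eq, beq_iff_eq] at n5
        exact n5.symm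
    · intro x y hx hxl hy hxy hyx
      rcases Nat.lt_or_ge y (u + 1) with hx2 | hx2
      · rw [key (y + 1) (by omega)]
        exact T.cross x y hx hxl (by omega) hxy hyx
      · have : y = u + 1 := by omega
        subst this
        have hx3 : x = l := by
          by_contra hne
          have : P (x + 1) ≤ P l := hP (by omega)
          omega
        subst hx3
        rw [kk, h2]
        exact fun h => n1 h.symm
  · rw [h1, e1]
  · rw [h2, e2]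
  · rw [key _ le_rfl, h4, e3]

theorem reach_elim {st : Q → Q → Bool} {A B : List Q} (h : reach st A B = true) {r : Q}
    (hr : r ∈ B) : ∃ q ∈ A, st q r = true := by
  unfold reach at h
  rw [List.all_eq_true] at h
  exact List.any_eq_true.1 (h r hr)

theorem inv_v {P : ℕ → ℕ} {a e : ℕ} {S : Set ℕ} {l u : ℕ} (hu : u = P (l + 1))
    (I : Inv P a e S l u) : Inv P a e S (l + 1) u := by
  obtain ⟨A, hA, hm, hq⟩ := I
  obtain ⟨B, hB, hAB⟩ := List.any_eq_true.1 (List.all_eq_true.1 cl_v A hA)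
  rw [Bool.and_eq_true, beq_iff_eq] at hAB
  refine ⟨B, hB, hAB.1.trans hm, fun r hr => ?_⟩
  obtain ⟨q, hqA, hs⟩ := reach_elim hAB.2 hr
  obtain ⟨g, h, T, h1, h2, h3, h4⟩ := hq q hqA
  exact part_v hu T h1 h2 h3 h4 hs

theorem inv_w {P : ℕ → ℕ} (hP : Monotone P) {a e : ℕ} {S : Set ℕ}
    (hS : ∀ u ∈ S, P a < u ∧ u + 1 < e) (hSS : ∀ u ∈ S, u + 1 ∉ S) {l u : ℕ} (hl : a ≤ l)
    (hlu : P l ≤ u) (hu : u < P (l + 1)) (hue : u ≤ e)
    (I : Inv P a e S l u) : Inv P a e S l (u + 1) := by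
  obtain ⟨A, hA, hm, hq⟩ := I
  by_cases hN : u = e ∨ u ∈ S
  · have hmu : mode e S u = 1 := by
      unfold mode
      rw [if_neg (by omega), if_pos hN]
    rw [hmu] at hm
    by_cases hE : u = e
    · have hB := List.all_eq_true.1 cl_sb A hA
      rw [hm] at hB
      simp only [bne_self_eq_false, Bool.false_or] at hB
      obtain ⟨B, hB, hAB⟩ := List.any_eq_true.1 hB
      rw [Bool.and_eq_true, beq_iff_eq] at hAB
      refine ⟨B, hB, ?_, fun r hr => ?_⟩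
      · unfold mode
        rw [if_pos (by omega)]
        exact hAB.1
      · obtain ⟨q, hqA, hs⟩ := reach_elim hAB.2 hr
        obtain ⟨g, h, T, h1, h2, h3, h4⟩ := hq q hqA
        exact part_w hP hl hlu hu T h1 h2 h3 h4 1 hs (fun h => by simp at h)
          (fun _ => Or.inr (Or.inr hE)) (fun h => by simp at h)
    · have huS : u ∈ S := by tauto
      have hB := List.all_eq_true.1 cl_sn A hA
      rw [hm] at hB
      simp only [bne_self_eq_false, Bool.false_or] at hB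
      obtain ⟨B, hB, hAB⟩ := List.any_eq_true.1 hB
      rw [Bool.and_eq_true, beq_iff_eq] at hAB
      have h1e : u + 1 ≠ e := by have := hS u huS; omega
      have h1S : u + 1 ∉ S := hSS u huS
      refine ⟨B, hB, ?_, fun r hr => ?_⟩
      · unfold mode
        rw [if_neg (by omega), if_neg (by tauto)]
        exact hAB.1
      · obtain ⟨q, hqA, hs⟩ := reach_elim hAB.2 hr
        obtain ⟨g, h, T, h1, h2, h3, h4⟩ := hq q hqA
        exact part_w hP hl hlu hu T h1 h2 h3 h4 2 hs (fun h => by simp at h)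
          (fun h => by simp at h) (fun _ => ⟨h1S, h1e, hE, huS⟩)
  · have hmu : mode e S u = 0 := by
      unfold mode
      rw [if_neg (by omega), if_neg hN]
    rw [hmu] at hm
    by_cases hN1 : u + 1 = e ∨ u + 1 ∈ S
    · have hB := List.all_eq_true.1 cl_ns A hA
      rw [hm] at hB
      simp only [bne_self_eq_false, Bool.false_or] at hB
      obtain ⟨B, hB, hAB⟩ := List.any_eq_true.1 hB
      rw [Bool.and_eq_true, beq_iff_eq] at hAB
      refine ⟨B, hB, ?_, fun r hr => ?_⟩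
      · unfold mode
        rw [if_neg (by omega), if_pos hN1]
        exact hAB.1
      · obtain ⟨q, hqA, hs⟩ := reach_elim hAB.2 hr
        obtain ⟨g, h, T, h1, h2, h3, h4⟩ := hq q hqA
        exact part_w hP hl hlu hu T h1 h2 h3 h4 1 hs (fun h => by simp at h)
          (fun _ => by tauto) (fun h => by simp at h)
    · have hB := List.all_eq_true.1 cl_nn A hA
      rw [hm] at hB
      simp only [bne_self_eq_false, Bool.false_or] at hB
      obtain ⟨B, hB, hAB⟩ := List.any_eq_true.1 hB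
      rw [Bool.and_eq_true, beq_iff_eq] at hAB
      refine ⟨B, hB, ?_, fun r hr => ?_⟩
      · unfold mode
        rw [if_neg (by omega), if_neg hN1]
        exact hAB.1
      · obtain ⟨q, hqA, hs⟩ := reach_elim hAB.2 hr
        obtain ⟨g, h, T, h1, h2, h3, h4⟩ := hq q hqA
        exact part_w hP hl hlu hu T h1 h2 h3 h4 0 hs (fun _ => by tauto)
          (fun h => by simp at h) (fun h => by simp at h)

theorem inv_start {P : ℕ → ℕ} {a e : ℕ} (hPe : P a < e) {S : Set ℕ}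
    (hS : ∀ u ∈ S, P a < u ∧ u + 1 < e) : Inv P a e S a (P a) := by
  have hn : P a ∉ S := fun h => by have := hS _ h; omega
  refine ⟨_, cl_start, ?_, fun q hq => ?_⟩
  · unfold mode
    rw [if_neg (by omega), if_neg (by intro h; rcases h with h | h <;> [omega; exact hn h])]
  · have hq2 : q.1 = 3 ∧ q.2.1 ≠ 3 ∧ q.2.2.1 = 3 ∧ q.2.2.2 = 3 := by
      simp only [List.mem_cons, List.not_mem_nil, or_false] at hq
      rcases hq with rfl | rfl | rfl <;> exact ⟨rfl, by decide, rfl, rfl⟩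
    obtain ⟨q1, q2, q3, q4⟩ := hq2
    refine ⟨fun x => if x = a + 1 then q.2.1 else 3, fun _ => 3, ?_, ?_, ?_, ?_, ?_⟩
    · refine ⟨rfl, ?_, ?_, ?_, ?_, ?_, ?_, ?_, ?_, ?_⟩
      · intro x hx hxa; omega
      · intro x hx hxa; omega
      · intro y hy hya
        have := hS y hy
        omega
      · intro h; omega
      · intro h; omega
      · intro y hy hya; omega
      · intro y hy hya; omega
      · intro y hy hya; omega
      · intro x y hx hxa _ _ _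
        have : x = a := by omega
        subst this
        simpa using q2
    · simp [q1]
    · simp
    · exact q3.symm
    · exact q4.symm

end OL

open OL in
/-- (A) the automaton lemma -/
theorem ol (P : ℕ → ℕ) (hP : Monotone P) (a m e : ℕ) (ham : a ≤ m) (hend : P (m + 1) = e + 1)
    (hPe : P a < e) (S : Set ℕ) (hS : ∀ u ∈ S, P a < u ∧ u + 1 < e) (hSS : ∀ u ∈ S, u + 1 ∉ S) :
    ∃ fl fu : ℕ → Fin 4, Lvl P a m e S fl fu := by
  have row : ∀ l, a ≤ l → l ≤ m → Inv P a e S l (P l) → ∀ u, P l ≤ u → u ≤ P (l + 1) →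
      Inv P a e S l u := by
    intro l hl hlm I u hu
    induction u, hu using Nat.le_induction with
    | base => exact fun _ => I
    | succ u hu ih =>
      intro hu2
      have hb : P (l + 1) ≤ P (m + 1) := hP (by omega)
      exact inv_w hP hS hSS hl hu (by omega) (by omega) (ih (by omega))
  have col : ∀ l, a ≤ l → l ≤ m → Inv P a e S l (P l) := by
    intro l hl
    induction l, hl using Nat.le_induction with
    | base => exact fun _ => inv_start hPe hS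
    | succ l hl ih =>
      intro hlm
      exact inv_v rfl (row l hl (by omega) (ih (by omega)) _ (hP (by omega)) le_rfl)
  have I : Inv P a e S m (P (m + 1)) := row m ham le_rfl (col m ham le_rfl) _ (hP (by omega)) le_rfl
  rw [hend] at I
  obtain ⟨A, hA, hm, hq⟩ := I
  have hmu : mode e S (e + 1) = 2 := by
    unfold mode
    rw [if_pos rfl]
  rw [hmu] at hm
  have hB := List.all_eq_true.1 cl_end A hA
  rw [hm] at hB
  simp only [bne_self_eq_false, Bool.false_or] at hB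
  obtain ⟨q, hqA, hq3⟩ := List.any_eq_true.1 hB
  obtain ⟨g, h, T, h1, h2, h3, h4⟩ := hq q hqA
  refine ⟨fun x => g (x + 1), fun y => h (y + 1), ?_, T.begu, T.ine (by omega), T.ine1 le_rfl,
    T.l1, T.l2, ?_, ?_, ?_, ?_, ?_⟩
  · show g (m + 1) ≠ 3
    rw [h2]
    simpa using hq3
  · intro u hu
    exact T.inS u hu (by have := hS u hu; omega)
  · intro u hu hu2
    exact T.u1 u hu hu2
  · intro u hu hu2
    exact T.u2 u hu hu2
  · intro u hu hu2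
    exact T.gap u hu (by omega) hu2
  · intro l u hl hlm hu hu2
    have hb : P (l + 1) ≤ P (m + 1) := hP (by omega)
    exact T.cross l u hl hlm (by omega) hu hu2

end Pool.Agent.helper97.TQ6
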